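import Pool.Agent.Lib.P90b739.Turn

set_option autoImplicit false

open Finset

namespace Pool.Agent.Lib.P90b739

/-- triples of `Fin N` -/
abbrev Tr (N : ℕ) := {e : Finset (Fin N) // e.card = 3}

open Classical in
/-- the weights attached to a history -/
noncomputable def phi {N : ℕ} (h : List (Tr N)) (e : Finset (Fin N)) : ℝ :=
  if hc : e.card = 3 then
    (if ∃ i, h[i]? = some ⟨e, hc⟩ ∧ i % 3 = 0 then 3
      else if (⟨e, hc⟩ : Tr N) ∈ h then 0 else 1)
  else 1

lemma phi_nonneg {N : ℕ} (h : List (Tr N)) (e : Finset (Fin N)) : 0 ≤ phi h e := by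
  unfold phi; split_ifs <;> norm_num

lemma phi_le {N : ℕ} (h : List (Tr N)) (e : Finset (Fin N)) : phi h e ≤ 3 := by
  unfold phi; split_ifs <;> norm_num

lemma phi_nil {N : ℕ} : phi ([] : List (Tr N)) = fun _ => 1 := by
  funext e
  unfold phi
  split_ifs with h1 h2 h3
  · obtain ⟨i, hi, _⟩ := h2; simp at hi
  · simp at h3
  · rfl
  · rfl

lemma phi_of_notMem {N : ℕ} {h : List (Tr N)} {x : Tr N} (hx : x ∉ h) : phi h x.1 = 1 := by
  unfold phi
  rw [dif_pos x.2, if_neg, if_neg]
  · exact hx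
  · rintro ⟨i, hi, _⟩
    exact hx (List.mem_of_getElem? hi)

section play

variable {N n : ℕ} (p : Fin n ≃ Tr N)

lemma getElem?_play (m i : ℕ) (e : Tr N) :
    ((List.ofFn p).take m)[i]? = some e ↔ i < m ∧ ∃ hi : i < n, p ⟨i, hi⟩ = e := by
  rw [List.getElem?_take]
  by_cases h : i < m
  · simp only [h, if_true, true_and]
    rw [List.getElem?_ofFn]
    by_cases hn : i < n
    · simp [hn]
    · simp [hn]
  · simp [h]

lemma mem_play (m : ℕ) (e : Tr N) : e ∈ (List.ofFn p).take m ↔ (p.symm e).val < m := by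
  rw [List.mem_iff_getElem?]
  constructor
  · rintro ⟨i, hi⟩
    rw [getElem?_play] at hi
    obtain ⟨h1, h2, h3⟩ := hi
    rw [← h3, Equiv.symm_apply_apply]
    exact h1
  · intro h
    exact ⟨(p.symm e).val, (getElem?_play p m _ e).2 ⟨h, (p.symm e).2, by simp⟩⟩

lemma phi_play (m : ℕ) (e : Tr N) :
    phi ((List.ofFn p).take m) e.1 =
      if (p.symm e).val < m then (if (p.symm e).val % 3 = 0 then 3 else 0) else 1 := by
  unfold phi
  rw [dif_pos e.2]
  by_cases h : (p.symm e).val < m
  · rw [if_pos h]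
    by_cases h3 : (p.symm e).val % 3 = 0
    · rw [if_pos h3, if_pos]
      exact ⟨(p.symm e).val, (getElem?_play p m _ e).2 ⟨h, (p.symm e).2, by simp⟩, h3⟩
    · rw [if_neg h3, if_neg, if_pos]
      · exact (mem_play p m e).2 h
      · rintro ⟨i, hi, hi3⟩
        rw [getElem?_play] at hi
        obtain ⟨h1, h2, h4⟩ := hi
        apply h3
        have : p.symm e = ⟨i, h2⟩ := by rw [Equiv.symm_apply_eq]; exact h4.symm
        rw [this]; exact hi3
  · rw [if_neg h, if_neg, if_neg]
    · exact fun hh => h ((mem_play p m e).1 hh)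
    · rintro ⟨i, hi, _⟩
      exact h ((mem_play p m e).1 (List.mem_of_getElem? hi))

lemma phi_play_succ3 (k : ℕ) (hk : 3 * k + 3 ≤ n) :
    phi ((List.ofFn p).take (3 * (k + 1))) =
      after (phi ((List.ofFn p).take (3 * k))) (p ⟨3 * k, by omega⟩).1
        (p ⟨3 * k + 1, by omega⟩).1 (p ⟨3 * k + 2, by omega⟩).1 := by
  have b0 : 3 * k < n := by omega
  have b1 : 3 * k + 1 < n := by omega
  have b2 : 3 * k + 2 < n := by omega
  funext e
  by_cases hc : e.card = 3
  · obtain ⟨e', rfl⟩ : ∃ e' : Tr N, e'.1 = e := ⟨⟨e, hc⟩, rfl⟩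
    rw [phi_play]
    unfold after
    by_cases h0 : e' = p ⟨3 * k, b0⟩
    · subst h0
      rw [trip_same, Equiv.symm_apply_apply]
      simp only
      rw [if_pos (by omega), if_pos (by omega)]
    · rw [trip_ne _ (fun h => h0 (Subtype.ext h))]
      by_cases h2 : e' = p ⟨3 * k + 2, b2⟩
      · subst h2
        rw [kill_same, Equiv.symm_apply_apply]
        simp only
        rw [if_pos (by omega), if_neg (by omega)]
      · rw [kill_ne _ (fun h => h2 (Subtype.ext h))]
        by_cases h1 : e' = p ⟨3 * k + 1, b1⟩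
        · subst h1
          rw [kill_same, Equiv.symm_apply_apply]
          simp only
          rw [if_pos (by omega), if_neg (by omega)]
        · rw [kill_ne _ (fun h => h1 (Subtype.ext h)), phi_play]
          have n0 : (p.symm e').val ≠ 3 * k := fun h => h0 (by
            rw [← Equiv.symm_apply_eq]; exact Fin.ext h)
          have n1 : (p.symm e').val ≠ 3 * k + 1 := fun h => h1 (by
            rw [← Equiv.symm_apply_eq]; exact Fin.ext h)
          have n2 : (p.symm e').val ≠ 3 * k + 2 := fun h => h2 (by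
            rw [← Equiv.symm_apply_eq]; exact Fin.ext h)
          have hiff : (p.symm e').val < 3 * (k + 1) ↔ (p.symm e').val < 3 * k := by omega
          simp only [hiff]
  · have : ∀ h : List (Tr N), phi h e = 1 := fun h => by unfold phi; rw [dif_neg hc]
    rw [this]
    unfold after
    have a : ∀ j : Fin n, e ≠ (p j).1 := fun j h => hc (h ▸ (p j).2)
    rw [trip_ne _ (a _), kill_ne _ (a _), kill_ne _ (a _), this]

end play

open Classical in
/-- Maker's strategy -/
noncomputable def sig (N q : ℕ) (lam t : ℝ) (x0 : Tr N) (h : List (Tr N)) : Tr N :=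
  if H : (univ.filter (fun x : Tr N => x ∉ h)).Nonempty then
    Classical.choose (exists_min_image (univ.filter (fun x : Tr N => x ∉ h))
      (fun x => G lam t (Fam lam t q (phi h)) (kill (phi h) x.1)) H)
  else x0

lemma sig_spec {N q : ℕ} {lam t : ℝ} {x0 : Tr N} {h : List (Tr N)}
    (H : ∃ x : Tr N, x ∉ h) :
    sig N q lam t x0 h ∉ h ∧ ∀ y : Tr N, y ∉ h →
      G lam t (Fam lam t q (phi h)) (kill (phi h) (sig N q lam t x0 h).1) ≤
        G lam t (Fam lam t q (phi h)) (kill (phi h) y.1) := by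
  classical
  have H' : (univ.filter (fun x : Tr N => x ∉ h)).Nonempty := by
    obtain ⟨x, hx⟩ := H
    exact ⟨x, mem_filter.2 ⟨mem_univ _, hx⟩⟩
  have hs := Classical.choose_spec (exists_min_image (univ.filter (fun x : Tr N => x ∉ h))
      (fun x => G lam t (Fam lam t q (phi h)) (kill (phi h) x.1)) H')
  have e : sig N q lam t x0 h = Classical.choose (exists_min_image
      (univ.filter (fun x : Tr N => x ∉ h))
      (fun x => G lam t (Fam lam t q (phi h)) (kill (phi h) x.1)) H') := by
    unfold sig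
    rw [dif_pos H']
  rw [e]
  refine ⟨(mem_filter.1 hs.1).2, fun y hy => ?_⟩
  exact hs.2 y (mem_filter.2 ⟨mem_univ _, hy⟩)

/-- The invariant along a play. -/
lemma inv {N q n : ℕ} {lam t : ℝ} (hl : 0 < lam) (ht : 0 < t) (hq : 4 ≤ q) {M E : ℝ}
    (hM : 1 / (lam * t) + q * 3 ^ (q ^ 2) ≤ M)
    (hE4 : M ^ (q - 4) ≤ E) (hE3 : (t * 3 ^ (q ^ 2)) * M ^ (q - 3) ≤ E)
    (hE2 : (t * 3 ^ (q ^ 2)) ^ 2 * M ^ (q - 2) ≤ E) (x0 : Tr N)
    (p : Fin n ≃ Tr N)
    (hp : ∀ j : Fin n, j.val % 3 = 0 → p j = sig N q lam t x0 ((List.ofFn p).take j.val)) :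
    ∀ k, 3 * k ≤ n →
      Lam lam t q (fun _ : Finset (Fin N) => (1:ℝ)) - k * (25920 * E) ≤
        Lam lam t q (phi ((List.ofFn p).take (3 * k))) := by
  intro k
  induction k with
  | zero =>
    intro _
    simp only [mul_zero, List.take_zero, phi_nil]
    simp
  | succ k ih =>
    intro hk
    have ih' := ih (by omega)
    rw [phi_play_succ3 p k (by omega)]
    set φ := phi ((List.ofFn p).take (3 * k)) with hφ
    set x := p ⟨3 * k, by omega⟩ with hx
    set y1 := p ⟨3 * k + 1, by omega⟩ with hy1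
    set y2 := p ⟨3 * k + 2, by omega⟩ with hy2
    have nx : x ∉ (List.ofFn p).take (3 * k) := by
      rw [mem_play, hx, Equiv.symm_apply_apply]; simp
    have n1 : y1 ∉ (List.ofFn p).take (3 * k) := by
      rw [mem_play, hy1, Equiv.symm_apply_apply]; simp
    have n2 : y2 ∉ (List.ofFn p).take (3 * k) := by
      rw [mem_play, hy2, Equiv.symm_apply_apply]; simp
    have hxs : x = sig N q lam t x0 ((List.ofFn p).take (3 * k)) :=
      hp ⟨3 * k, by omega⟩ (by simp)
    have hs := sig_spec (q := q) (lam := lam) (t := t) (x0 := x0) ⟨x, nx⟩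
    rw [← hxs] at hs
    have hne1 : x.1 ≠ y1.1 := by
      intro h
      have h2 := p.injective (Subtype.ext h : p _ = p _)
      rw [Fin.mk.injEq] at h2; omega
    have hne2 : x.1 ≠ y2.1 := by
      intro h
      have h2 := p.injective (Subtype.ext h : p _ = p _)
      rw [Fin.mk.injEq] at h2; omega
    have hne12 : y1.1 ≠ y2.1 := by
      intro h
      have h2 := p.injective (Subtype.ext h : p _ = p _)
      rw [Fin.mk.injEq] at h2; omega
    have := turn hl ht hq (phi_nonneg _) (phi_le _) hM hE4 hE3 hE2 x.2 y1.2 y2.2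
      hne1 hne2 hne12 (phi_of_notMem nx) (phi_of_notMem n1) (phi_of_notMem n2)
      (hs.2 y1 n1) (hs.2 y2 n2)
    rw [← hφ] at this
    push_cast
    linarith

/-- The end of the game. -/
lemma final {N q n : ℕ} {lam t : ℝ} (hl : 0 < lam) (ht : 0 < t) (hq : 4 ≤ q) {M E : ℝ}
    (hM : 1 / (lam * t) + q * 3 ^ (q ^ 2) ≤ M)
    (hE4 : M ^ (q - 4) ≤ E) (hE3 : (t * 3 ^ (q ^ 2)) * M ^ (q - 3) ≤ E)
    (hE2 : (t * 3 ^ (q ^ 2)) ^ 2 * M ^ (q - 2) ≤ E) (x0 : Tr N)
    (p : Fin n ≃ Tr N)
    (hp : ∀ j : Fin n, j.val % 3 = 0 → p j = sig N q lam t x0 ((List.ofFn p).take j.val))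
    (hbig : n * (25920 * E) + M ^ (q - 3) <
      Lam lam t q (fun _ : Finset (Fin N) => (1:ℝ))) :
    ∃ S : Finset (Fin N), S.card = q ∧ ∀ e : Tr N, e.1 ⊆ S → ∃ j, j.val % 3 = 0 ∧ p j = e := by
  classical
  set k := n / 3 with hk
  have hk3 : 3 * k ≤ n := by omega
  have hM0 : 0 ≤ M := le_trans (by positivity) hM
  have hE0 : 0 ≤ E := le_trans (by positivity) hE4
  have hinv := inv hl ht hq hM hE4 hE3 hE2 x0 p hp k hk3
  set φ := phi ((List.ofFn p).take (3 * k)) with hφ
  have hkn : (k : ℝ) * (25920 * E) ≤ n * (25920 * E) := by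
    refine mul_le_mul_of_nonneg_right ?_ (by positivity)
    have : k ≤ n := by omega
    exact_mod_cast this
  have hLam : M ^ (q - 3) < Lam lam t q φ := by linarith
  have hsumw := Lam_le_sum_w hl.le ht.le (q := q) (phi_nonneg ((List.ofFn p).take (3 * k)))
  rw [← hφ] at hsumw
  -- find S
  obtain ⟨S, hS, hSw, hSy⟩ : ∃ S ∈ Fam lam t q φ, 0 < w φ S ∧
      ∀ j : Fin n, j.val = 3 * k + 1 → ¬ (p j).1 ⊆ S := by
    by_contra hcon
    push Not at hcon
    by_cases hn : 3 * k + 1 < n
    · set y := p ⟨3 * k + 1, hn⟩ with hy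
      have hyn : y ∉ (List.ofFn p).take (3 * k) := by
        rw [mem_play, hy, Equiv.symm_apply_apply]; simp
      have hc := chain hl ht (phi_nonneg ((List.ofFn p).take (3 * k))) (phi_le _) hM (q - 3) y.1
        (by rw [y.2]; omega)
      have hwy : w φ y.1 = 1 := by
        unfold w
        have : powersetCard 3 y.1 = {y.1} := by
          have := powersetCard_self y.1
          rwa [y.2] at this
        rw [this, prod_singleton]
        exact phi_of_notMem hyn
      rw [← hφ, hwy, one_mul] at hc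
      have hle : ∑ S ∈ Fam lam t q φ, w φ S ≤
          ∑ S ∈ (Fam lam t q φ).filter (fun S => y.1 ⊆ S), w φ S := by
        rw [sum_filter]
        refine sum_le_sum fun S hS => ?_
        split_ifs with h
        · exact le_refl _
        · by_contra hpos
          push Not at hpos
          obtain ⟨j, hj, hjS⟩ := hcon S hS hpos
          apply h
          have : j = ⟨3 * k + 1, hn⟩ := Fin.ext hj
          rw [this] at hjS
          exact hjS
      linarith
    · have hle : ∑ S ∈ Fam lam t q φ, w φ S ≤ 0 := by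
        refine sum_nonpos fun S hS => ?_
        by_contra hpos
        push Not at hpos
        obtain ⟨j, hj, _⟩ := hcon S hS hpos
        have := j.2
        omega
      have : 0 ≤ M ^ (q - 3) := pow_nonneg hM0 _
      linarith
  rw [Fam, mem_filter, mem_powersetCard] at hS
  refine ⟨S, hS.1.2, fun e he => ⟨p.symm e, ?_, by simp⟩⟩
  have hne : phi ((List.ofFn p).take (3 * k)) e.1 ≠ 0 := by
    intro h0
    have : w φ S = 0 := prod_eq_zero (mem_powersetCard.2 ⟨he, e.2⟩) h0
    rw [this] at hSw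
    exact lt_irrefl _ hSw
  rw [phi_play] at hne
  by_cases hlt : (p.symm e).val < 3 * k
  · rw [if_pos hlt] at hne
    by_contra hmod
    rw [if_neg hmod] at hne
    exact hne rfl
  · have h1 := (p.symm e).2
    have h2 : (p.symm e).val ≠ 3 * k + 1 := by
      intro h
      apply hSy (p.symm e) h
      rw [Equiv.apply_symm_apply]; exact he
    omega

end Pool.Agent.Lib.P90b739
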