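import Pool.Agent.Lib.P90b739.Game

set_option autoImplicit false

open Finset

namespace Pool.Agent.Lib.P90b739

lemma Lam_init {N q : ℕ} (hN : 0 < N) :
    (N.choose q : ℝ) / 2 ≤
      Lam (1 / (6 * 2 ^ q)) (1 / N) q (fun _ : Finset (Fin N) => (1:ℝ)) := by
  have hN' : (0:ℝ) < N := by exact_mod_cast hN
  unfold Lam
  have key : ∀ S ∈ powersetCard q (univ : Finset (Fin N)),
      (1:ℝ) / 2 ≤ w (fun _ => (1:ℝ)) S * max (hh (1 / (6 * 2 ^ q)) (1 / N) (fun _ => 1) S) 0 := by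
    intro S hS
    rw [mem_powersetCard] at hS
    have hw : w (fun _ => (1:ℝ)) S = 1 := by unfold w; simp
    rw [hw, one_mul]
    refine le_trans ?_ (le_max_left _ _)
    have hr : ∀ Z ∈ S.powerset, rho (1 / N) (fun _ => (1:ℝ)) S Z ≤ 3 := by
      intro Z _
      unfold rho d
      simp only [prod_const_one, mul_one, prod_const]
      have h1 : (1 + 1 / (N:ℝ)) ≤ Real.exp (1 / N) := by
        have := Real.add_one_le_exp (1 / (N:ℝ)); linarith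
      have h2 : (1:ℝ) ≤ 1 + 1 / N := by
        have : (0:ℝ) ≤ 1 / N := by positivity
        linarith
      have h3 : (Sᶜ).card ≤ N := by
        have := card_le_univ (Sᶜ); simpa using this
      calc (1 + 1 / (N:ℝ)) ^ (Sᶜ).card ≤ (1 + 1 / (N:ℝ)) ^ N := pow_le_pow_right₀ h2 h3
        _ ≤ (Real.exp (1 / N)) ^ N := pow_le_pow_left₀ (by linarith) h1 N
        _ = Real.exp 1 := by
            rw [← Real.exp_nat_mul]; congr 1; field_simp
        _ ≤ 3 := Real.exp_one_lt_three.le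
    unfold hh
    have hs : ∑ Z ∈ S.powerset, rho (1 / N) (fun _ => (1:ℝ)) S Z ≤ 2 ^ q * 3 := by
      calc _ ≤ ∑ Z ∈ S.powerset, (3:ℝ) := sum_le_sum hr
        _ = 2 ^ q * 3 := by
          rw [sum_const, card_powerset, hS.2, nsmul_eq_mul]; push_cast; ring
    have hp : (0:ℝ) < 1 / (6 * 2 ^ q) := by positivity
    have := mul_le_mul_of_nonneg_left hs hp.le
    have e : (1:ℝ) / (6 * 2 ^ q) * (2 ^ q * 3) = 1 / 2 := by
      field_simp; norm_num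
    linarith
  calc (N.choose q : ℝ) / 2 = ∑ S ∈ powersetCard q (univ : Finset (Fin N)), (1:ℝ) / 2 := by
        rw [sum_const, card_powersetCard, nsmul_eq_mul]; simp; ring
    _ ≤ _ := sum_le_sum key

lemma choose_lower {N q : ℕ} (hq : 2 * q ≤ N) :
    (N:ℝ) ^ q ≤ (2 ^ q * (q:ℝ) ^ q) * N.choose q := by
  have h1 := Nat.pow_le_choose (α := ℝ) q N
  have h2 : (N:ℝ) / 2 ≤ ((N + 1 - q : ℕ) : ℝ) := by
    have : N ≤ 2 * (N + 1 - q) := by omega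
    have : (N:ℝ) ≤ 2 * ((N + 1 - q : ℕ) : ℝ) := by exact_mod_cast this
    linarith
  have h3 : ((N:ℝ) / 2) ^ q ≤ ((N + 1 - q : ℕ) : ℝ) ^ q := pow_le_pow_left₀ (by positivity) h2 q
  have h4 : (0:ℝ) < (q.factorial : ℝ) := by exact_mod_cast q.factorial_pos
  rw [div_le_iff₀ h4] at h1
  have h5 : (q.factorial : ℝ) ≤ (q:ℝ) ^ q := by exact_mod_cast Nat.factorial_le_pow q
  have h6 : (0:ℝ) ≤ N.choose q := by positivity
  have h7 : ((N:ℝ) / 2) ^ q ≤ (N.choose q : ℝ) * (q:ℝ) ^ q :=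
    le_trans (le_trans h3 h1) (mul_le_mul_of_nonneg_left h5 h6)
  rw [div_pow, div_le_iff₀ (by positivity)] at h7
  linarith

lemma num_nat {q : ℕ} (hq : 4 ≤ q) :
    2 * 2 ^ q * q ^ q * (25921 * (3 ^ (q ^ 2)) ^ 2 * (7 * 2 ^ q) ^ q) < 2 ^ (10 * q ^ 2) := by
  have a1 : 2 * 2 ^ q ≤ 2 ^ (q ^ 2) := by
    rw [← pow_succ']
    exact Nat.pow_le_pow_right (by norm_num) (by nlinarith)
  have a2 : q ^ q ≤ 2 ^ (q ^ 2) := by
    calc q ^ q ≤ (2 ^ q) ^ q := Nat.pow_le_pow_left (Nat.lt_two_pow_self).le q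
      _ = 2 ^ (q ^ 2) := by rw [← pow_mul, sq]
  have a3 : 25921 ≤ 2 ^ (q ^ 2) := by
    calc 25921 ≤ 2 ^ 16 := by norm_num
      _ ≤ 2 ^ (q ^ 2) := Nat.pow_le_pow_right (by norm_num) (by nlinarith)
  have a4 : (3 ^ (q ^ 2)) ^ 2 = 9 ^ (q ^ 2) := by
    rw [← pow_mul, mul_comm, pow_mul]; norm_num
  have a5 : (7 * 2 ^ q) ^ q ≤ 7 ^ (q ^ 2) * 2 ^ (q ^ 2) := by
    rw [mul_pow, ← pow_mul, sq]
    exact Nat.mul_le_mul_right _ (Nat.pow_le_pow_right (by norm_num) (by nlinarith))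
  have a6 : (2:ℕ) ^ (10 * q ^ 2) = 1024 ^ (q ^ 2) := by rw [pow_mul]; norm_num
  have a7 : (1008:ℕ) ^ (q ^ 2) < 1024 ^ (q ^ 2) :=
    Nat.pow_lt_pow_left (by norm_num) (by positivity)
  rw [a6, a4]
  refine lt_of_le_of_lt ?_ a7
  calc 2 * 2 ^ q * q ^ q * (25921 * 9 ^ (q ^ 2) * (7 * 2 ^ q) ^ q)
      ≤ 2 ^ (q ^ 2) * 2 ^ (q ^ 2) * (2 ^ (q ^ 2) * 9 ^ (q ^ 2) * (7 ^ (q ^ 2) * 2 ^ (q ^ 2))) := by
        gcongr
    _ = 1008 ^ (q ^ 2) := by
        rw [← mul_pow, ← mul_pow, ← mul_pow, ← mul_pow, ← mul_pow]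
        norm_num

/-- The finite version of the theorem. -/
theorem finite_version {N q n : ℕ} (hq : 4 ≤ q) (hN : 2 ^ (10 * q ^ 2) ≤ N) (x0 : Tr N)
    (hn : n = Fintype.card (Tr N)) (p : Fin n ≃ Tr N)
    (hp : ∀ j : Fin n, j.val % 3 = 0 →
      p j = sig N q (1 / (6 * 2 ^ q)) (1 / N) x0 ((List.ofFn p).take j.val)) :
    ∃ S : Finset (Fin N), S.card = q ∧ ∀ e : Tr N, e.1 ⊆ S → ∃ j, j.val % 3 = 0 ∧ p j = e := by
  have hN0 : 0 < N := lt_of_lt_of_le (by positivity) hN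
  have hNR : (0:ℝ) < N := by exact_mod_cast hN0
  have hN1 : (1:ℝ) ≤ N := by exact_mod_cast hN0
  set K : ℝ := 7 * 2 ^ q with hK
  set W : ℝ := 3 ^ (q ^ 2) with hW
  have hK1 : 1 ≤ K := by
    have : (1:ℝ) ≤ 2 ^ q := one_le_pow₀ (by norm_num)
    rw [hK]; linarith
  have hW1 : 1 ≤ W := one_le_pow₀ (by norm_num)
  set M : ℝ := K * N with hM
  set E : ℝ := W ^ 2 * K ^ q * (N:ℝ) ^ (q - 4) with hE
  have hl : (0:ℝ) < 1 / (6 * 2 ^ q) := by positivity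
  have ht : (0:ℝ) < 1 / N := by positivity
  have hqN : 2 * q ≤ N := by
    refine le_trans ?_ hN
    calc 2 * q ≤ 2 * 2 ^ q := by
          have := (Nat.lt_two_pow_self (n := q)).le; omega
      _ = 2 ^ (q + 1) := by rw [pow_succ']
      _ ≤ 2 ^ (10 * q ^ 2) := Nat.pow_le_pow_right (by norm_num) (by nlinarith)
  have c1 : 1 / ((1:ℝ) / (6 * 2 ^ q) * (1 / N)) + q * 3 ^ (q ^ 2) ≤ M := by
    have e1 : 1 / ((1:ℝ) / (6 * 2 ^ q) * (1 / N)) = 6 * 2 ^ q * N := by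
      field_simp
    have e2 : (q:ℝ) * 3 ^ (q ^ 2) ≤ 2 ^ q * N := by
      have f1 : (q:ℝ) ≤ 2 ^ q := by exact_mod_cast (Nat.lt_two_pow_self (n := q)).le
      have f2 : (3:ℝ) ^ (q ^ 2) ≤ N := by
        have : 3 ^ (q ^ 2) ≤ N := by
          refine le_trans ?_ hN
          rw [pow_mul]
          exact Nat.pow_le_pow_left (by norm_num) _
        exact_mod_cast this
      exact mul_le_mul f1 f2 (by positivity) (by positivity)
    rw [e1, hM, hK]; linarith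
  have c4 : M ^ (q - 4) ≤ E := by
    rw [hM, hE, mul_pow]
    have g1 : K ^ (q - 4) ≤ K ^ q := pow_le_pow_right₀ hK1 (by omega)
    have g2 : (1:ℝ) ≤ W ^ 2 := one_le_pow₀ hW1
    have g3 : K ^ (q - 4) ≤ W ^ 2 * K ^ q := by
      calc K ^ (q - 4) ≤ K ^ q := g1
        _ = 1 * K ^ q := (one_mul _).symm
        _ ≤ W ^ 2 * K ^ q := mul_le_mul_of_nonneg_right g2 (by positivity)
    exact mul_le_mul_of_nonneg_right g3 (by positivity)
  have c3 : ((1:ℝ) / N * 3 ^ (q ^ 2)) * M ^ (q - 3) ≤ E := by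
    obtain ⟨r, rfl⟩ : ∃ r, q = r + 4 := ⟨q - 4, by omega⟩
    have s1 : r + 4 - 3 = r + 1 := by omega
    have s2 : r + 4 - 4 = r := by omega
    rw [hM, hE, s1, s2, ← hW, mul_pow]
    have g0 : (1:ℝ) / N * W * (K ^ (r + 1) * (N:ℝ) ^ (r + 1)) = W * K ^ (r + 1) * (N:ℝ) ^ r := by
      rw [pow_succ (N:ℝ) r]; field_simp
    rw [g0]
    refine mul_le_mul_of_nonneg_right ?_ (by positivity)
    refine mul_le_mul ?_ (pow_le_pow_right₀ hK1 (by omega)) (by positivity) (by positivity)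
    nlinarith
  have c2 : ((1:ℝ) / N * 3 ^ (q ^ 2)) ^ 2 * M ^ (q - 2) ≤ E := by
    obtain ⟨r, rfl⟩ : ∃ r, q = r + 4 := ⟨q - 4, by omega⟩
    have s1 : r + 4 - 2 = r + 2 := by omega
    have s2 : r + 4 - 4 = r := by omega
    rw [hM, hE, s1, s2, ← hW, mul_pow, mul_pow]
    have g0 : ((1:ℝ) / N) ^ 2 * W ^ 2 * (K ^ (r + 2) * (N:ℝ) ^ (r + 2)) =
        W ^ 2 * K ^ (r + 2) * (N:ℝ) ^ r := by
      rw [pow_add (N:ℝ) r 2]; field_simp
    rw [g0]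
    refine mul_le_mul_of_nonneg_right ?_ (by positivity)
    exact mul_le_mul_of_nonneg_left (pow_le_pow_right₀ hK1 (by omega)) (by positivity)
  have hnN : (n:ℝ) ≤ (N:ℝ) ^ 3 := by
    have h1 : Fintype.card (Tr N) = N.choose 3 := by
      rw [Fintype.card_subtype]
      have : (univ.filter fun e : Finset (Fin N) => e.card = 3) = powersetCard 3 univ := by
        ext e; simp [mem_powersetCard]
      rw [this, card_powersetCard]; simp
    have h2 : n ≤ N ^ 3 := by rw [hn, h1]; exact Nat.choose_le_pow N 3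
    exact_mod_cast h2
  refine final hl ht hq c1 c4 c3 c2 x0 p hp ?_
  refine lt_of_lt_of_le ?_ (Lam_init hN0)
  -- numeric
  have hch := choose_lower hqN
  have hnum := num_nat hq
  have hnumR : 2 * 2 ^ q * (q:ℝ) ^ q * (25921 * W ^ 2 * K ^ q) < N := by
    have : 2 * 2 ^ q * q ^ q * (25921 * (3 ^ (q ^ 2)) ^ 2 * (7 * 2 ^ q) ^ q) < N :=
      lt_of_lt_of_le hnum hN
    have h := (Nat.cast_lt (α := ℝ)).2 this
    push_cast at h
    rw [hW, hK]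
    exact h
  have hE0 : 0 ≤ E := by positivity
  have t1 : (n:ℝ) * (25920 * E) ≤ 25920 * (W ^ 2 * K ^ q * (N:ℝ) ^ (q - 1)) := by
    calc (n:ℝ) * (25920 * E) ≤ (N:ℝ) ^ 3 * (25920 * E) :=
          mul_le_mul_of_nonneg_right hnN (by positivity)
      _ = 25920 * (W ^ 2 * K ^ q * ((N:ℝ) ^ (q - 4) * (N:ℝ) ^ 3)) := by rw [hE]; ring
      _ = 25920 * (W ^ 2 * K ^ q * (N:ℝ) ^ (q - 1)) := by
          rw [← pow_add]; congr 4; omega
  have t2 : M ^ (q - 3) ≤ W ^ 2 * K ^ q * (N:ℝ) ^ (q - 1) := by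
    rw [hM, mul_pow]
    have g2 : (1:ℝ) ≤ W ^ 2 := one_le_pow₀ hW1
    have g1 : K ^ (q - 3) ≤ K ^ q := pow_le_pow_right₀ hK1 (by omega)
    have g4 : (N:ℝ) ^ (q - 3) ≤ (N:ℝ) ^ (q - 1) := pow_le_pow_right₀ hN1 (by omega)
    have g3 : K ^ (q - 3) ≤ W ^ 2 * K ^ q := by
      calc K ^ (q - 3) ≤ K ^ q := g1
        _ = 1 * K ^ q := (one_mul _).symm
        _ ≤ W ^ 2 * K ^ q := mul_le_mul_of_nonneg_right g2 (by positivity)
    exact mul_le_mul g3 g4 (by positivity) (by positivity)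
  have t3 : (n:ℝ) * (25920 * E) + M ^ (q - 3) ≤ 25921 * (W ^ 2 * K ^ q * (N:ℝ) ^ (q - 1)) := by
    linarith
  refine lt_of_le_of_lt t3 ?_
  have hA : (0:ℝ) < 2 ^ q * (q:ℝ) ^ q := by
    have : (0:ℝ) < q := by exact_mod_cast (by omega : 0 < q)
    positivity
  have hNq : (N:ℝ) ^ q = N * (N:ℝ) ^ (q - 1) := by
    rw [← pow_succ']; congr 1; omega
  have hNp : (0:ℝ) < (N:ℝ) ^ (q - 1) := by positivity
  have t4 : 2 * (2 ^ q * (q:ℝ) ^ q) * (25921 * (W ^ 2 * K ^ q * (N:ℝ) ^ (q - 1))) <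
      (2 ^ q * (q:ℝ) ^ q) * N.choose q := by
    calc 2 * (2 ^ q * (q:ℝ) ^ q) * (25921 * (W ^ 2 * K ^ q * (N:ℝ) ^ (q - 1)))
        = (2 * 2 ^ q * (q:ℝ) ^ q * (25921 * W ^ 2 * K ^ q)) * (N:ℝ) ^ (q - 1) := by ring
      _ < N * (N:ℝ) ^ (q - 1) := mul_lt_mul_of_pos_right hnumR hNp
      _ = (N:ℝ) ^ q := hNq.symm
      _ ≤ _ := hch
  have t5 : (2 ^ q * (q:ℝ) ^ q) * (2 * (25921 * (W ^ 2 * K ^ q * (N:ℝ) ^ (q - 1)))) <
      (2 ^ q * (q:ℝ) ^ q) * N.choose q := by linarith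
  have t6 := lt_of_mul_lt_mul_left t5 hA.le
  linarith

end Pool.Agent.Lib.P90b739
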