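import Mathlib

set_option autoImplicit false

open Finset

namespace Pool.Agent.Lib.P90b739

variable {V : Type*} [Fintype V] [DecidableEq V]

/-- weight of a vertex set: product of the weights of its triples -/
noncomputable def w (φ : Finset V → ℝ) (S : Finset V) : ℝ := ∏ e ∈ S.powersetCard 3, φ e

/-- weight of the one-vertex extension of `Z` by `v` -/
noncomputable def d (φ : Finset V → ℝ) (Z : Finset V) (v : V) : ℝ :=
  ∏ p ∈ Z.powersetCard 2, φ (insert v p)

/-- regularity potential of `Z`, relative to `S` -/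
noncomputable def rho (t : ℝ) (φ : Finset V → ℝ) (S Z : Finset V) : ℝ :=
  ∏ v ∈ Sᶜ, (1 + t * d φ Z v)

/-- the discount factor of `S` -/
noncomputable def hh (lam t : ℝ) (φ : Finset V → ℝ) (S : Finset V) : ℝ :=
  1 - lam * ∑ Z ∈ S.powerset, rho t φ S Z

/-- the position in which Breaker claims `e` in addition -/
def kill (φ : Finset V → ℝ) (e : Finset V) : Finset V → ℝ := Function.update φ e 0

/-- the position in which Maker claims `e` in addition -/
def trip (φ : Finset V → ℝ) (e : Finset V) : Finset V → ℝ := Function.update φ e 3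

omit [Fintype V] in
lemma kill_same (φ : Finset V → ℝ) (e : Finset V) : kill φ e e = 0 := by simp [kill]
omit [Fintype V] in
lemma kill_ne (φ : Finset V → ℝ) {e f : Finset V} (h : f ≠ e) : kill φ e f = φ f := by
  simp [kill, h]
omit [Fintype V] in
lemma trip_same (φ : Finset V → ℝ) (e : Finset V) : trip φ e e = 3 := by simp [trip]
omit [Fintype V] in
lemma trip_ne (φ : Finset V → ℝ) {e f : Finset V} (h : f ≠ e) : trip φ e f = φ f := by
  simp [trip, h]

omit [Fintype V] in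
lemma kill_le {φ : Finset V → ℝ} (h0 : ∀ e, 0 ≤ φ e) (e : Finset V) : ∀ f, kill φ e f ≤ φ f := by
  intro f
  by_cases h : f = e
  · subst h; rw [kill_same]; exact h0 _
  · rw [kill_ne _ h]

omit [Fintype V] in
lemma kill_nonneg {φ : Finset V → ℝ} (h0 : ∀ e, 0 ≤ φ e) (e : Finset V) : ∀ f, 0 ≤ kill φ e f := by
  intro f
  by_cases h : f = e
  · subst h; rw [kill_same]
  · rw [kill_ne _ h]; exact h0 _

omit [Fintype V] [DecidableEq V] in
lemma w_nonneg {φ : Finset V → ℝ} (h0 : ∀ e, 0 ≤ φ e) (S : Finset V) : 0 ≤ w φ S :=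
  prod_nonneg fun _ _ => h0 _

omit [Fintype V] in
lemma d_nonneg {φ : Finset V → ℝ} (h0 : ∀ e, 0 ≤ φ e) (Z : Finset V) (v : V) : 0 ≤ d φ Z v :=
  prod_nonneg fun _ _ => h0 _

omit [Fintype V] [DecidableEq V] in
lemma w_mono {φ ψ : Finset V → ℝ} (h0 : ∀ e, 0 ≤ φ e) (h : ∀ e, φ e ≤ ψ e) (S : Finset V) :
    w φ S ≤ w ψ S := prod_le_prod (fun _ _ => h0 _) fun _ _ => h _

omit [Fintype V] in
lemma d_mono {φ ψ : Finset V → ℝ} (h0 : ∀ e, 0 ≤ φ e) (h : ∀ e, φ e ≤ ψ e) (Z : Finset V) (v : V) :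
    d φ Z v ≤ d ψ Z v := prod_le_prod (fun _ _ => h0 _) fun _ _ => h _

lemma rho_one_le {t : ℝ} (ht : 0 ≤ t) {φ : Finset V → ℝ} (h0 : ∀ e, 0 ≤ φ e) (S Z : Finset V) :
    1 ≤ rho t φ S Z := by
  unfold rho
  have : ∀ v ∈ Sᶜ, (1:ℝ) ≤ 1 + t * d φ Z v := fun v _ => by
    have := mul_nonneg ht (d_nonneg h0 Z v); linarith
  calc (1:ℝ) = ∏ v ∈ Sᶜ, 1 := by simp
    _ ≤ _ := prod_le_prod (fun _ _ => zero_le_one) this

lemma rho_nonneg {t : ℝ} (ht : 0 ≤ t) {φ : Finset V → ℝ} (h0 : ∀ e, 0 ≤ φ e) (S Z : Finset V) :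
    0 ≤ rho t φ S Z := le_trans zero_le_one (rho_one_le ht h0 S Z)

lemma rho_mono {t : ℝ} (ht : 0 ≤ t) {φ ψ : Finset V → ℝ} (h0 : ∀ e, 0 ≤ φ e)
    (h : ∀ e, φ e ≤ ψ e) (S Z : Finset V) :
    rho t φ S Z ≤ rho t ψ S Z := by
  unfold rho
  refine prod_le_prod (fun v _ => ?_) fun v _ => ?_
  · have := mul_nonneg ht (d_nonneg h0 Z v); linarith
  · have := mul_le_mul_of_nonneg_left (d_mono h0 h Z v) ht; linarith

/-- `1 + ∑ a ≤ ∏ (1 + a)` for nonnegative reals. -/
lemma one_add_sum_le {ι : Type*} (s : Finset ι) (a : ι → ℝ) (ha : ∀ i ∈ s, 0 ≤ a i) :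
    1 + ∑ i ∈ s, a i ≤ ∏ i ∈ s, (1 + a i) := by
  classical
  induction s using Finset.induction_on with
  | empty => simp
  | insert i s hi ih =>
    rw [sum_insert hi, prod_insert hi]
    have h1 := ih (fun j hj => ha j (mem_insert_of_mem hj))
    have h2 := ha i (mem_insert_self _ _)
    have h3 : 0 ≤ ∑ i ∈ s, a i := sum_nonneg fun j hj => ha j (mem_insert_of_mem hj)
    nlinarith

lemma sum_biUnion_le_sum_sum {ι α : Type*} [DecidableEq α] (s : Finset ι) (u : ι → Finset α)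
    (f : α → ℝ) (hf : ∀ a, 0 ≤ f a) : ∑ a ∈ s.biUnion u, f a ≤ ∑ i ∈ s, ∑ a ∈ u i, f a := by
  classical
  induction s using Finset.induction_on with
  | empty => simp
  | insert i s hi ih =>
    rw [biUnion_insert, sum_insert hi]
    have : ∑ a ∈ u i ∪ s.biUnion u, f a ≤ ∑ a ∈ u i, f a + ∑ a ∈ s.biUnion u, f a := by
      rw [← sum_union_inter]
      have : 0 ≤ ∑ a ∈ u i ∩ s.biUnion u, f a := sum_nonneg fun _ _ => hf _
      linarith
    linarith

/-! ### Weights of extensions -/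

omit [Fintype V] in
lemma w_insert (φ : Finset V → ℝ) (Y : Finset V) (v : V) (hv : v ∉ Y) :
    w φ (insert v Y) = w φ Y * d φ Y v := by
  unfold w d
  rw [powersetCard_succ_insert hv 2, prod_union, prod_image]
  · intro p hp p' hp' h
    rw [mem_coe, mem_powersetCard] at hp hp'
    have h1 : v ∉ p := fun h => hv (hp.1 h)
    have h2 : v ∉ p' := fun h => hv (hp'.1 h)
    rw [← erase_insert h1, ← erase_insert h2, h]
  · rw [disjoint_left]
    intro e he he'
    rw [mem_powersetCard] at he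
    rw [mem_image] at he'
    obtain ⟨p, _, rfl⟩ := he'
    exact hv (he.1 (mem_insert_self _ _))

omit [Fintype V] [DecidableEq V] in
lemma choose_two_le (k q : ℕ) (h : k ≤ q) : k.choose 2 ≤ q ^ 2 :=
  le_trans (Nat.choose_le_pow k 2) (Nat.pow_le_pow_left h 2)

omit [Fintype V] in
lemma d_le {φ : Finset V → ℝ} (h0 : ∀ e, 0 ≤ φ e) (h3 : ∀ e, φ e ≤ 3) (q : ℕ) (Z : Finset V)
    (hZ : Z.card ≤ q) (v : V) : d φ Z v ≤ 3 ^ (q ^ 2) := by
  unfold d
  calc ∏ p ∈ Z.powersetCard 2, φ (insert v p) ≤ ∏ p ∈ Z.powersetCard 2, (3:ℝ) :=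
        prod_le_prod (fun _ _ => h0 _) fun _ _ => h3 _
    _ = 3 ^ (Z.card.choose 2) := by rw [prod_const, card_powersetCard]
    _ ≤ 3 ^ (q ^ 2) := pow_le_pow_right₀ (by norm_num) (choose_two_le _ _ hZ)

omit [Fintype V] [DecidableEq V] in
lemma w_le {φ : Finset V → ℝ} (h0 : ∀ e, 0 ≤ φ e) (h3 : ∀ e, φ e ≤ 3) (Y : Finset V)
    (hY : Y.card ≤ 4) : w φ Y ≤ 81 := by
  unfold w
  calc ∏ p ∈ Y.powersetCard 3, φ p ≤ ∏ p ∈ Y.powersetCard 3, (3:ℝ) :=
        prod_le_prod (fun _ _ => h0 _) fun _ _ => h3 _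
    _ = 3 ^ (Y.card.choose 3) := by rw [prod_const, card_powersetCard]
    _ ≤ 3 ^ 4 := by
        refine pow_le_pow_right₀ (by norm_num) ?_
        calc Y.card.choose 3 ≤ (4).choose 3 := Nat.choose_le_choose 3 hY
          _ = 4 := by decide
    _ = 81 := by norm_num

/-! ### The chain bound -/

/-- The family of `q`-sets with positive discount factor. -/
noncomputable def Fam (lam t : ℝ) (q : ℕ) (φ : Finset V → ℝ) : Finset (Finset V) :=
  (powersetCard q univ).filter fun S => 0 < hh lam t φ S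

/-- If `Z` is contained in a set with positive discount factor then the weighted number of
one-vertex extensions of `Z` is bounded. -/
lemma deg_le {lam t : ℝ} (hl : 0 < lam) (ht : 0 < t) {q : ℕ} {φ : Finset V → ℝ}
    (h0 : ∀ e, 0 ≤ φ e) (h3 : ∀ e, φ e ≤ 3) {S : Finset V} (hS : S ∈ Fam lam t q φ)
    {Z : Finset V} (hZ : Z ⊆ S) :
    ∑ v ∈ Zᶜ, d φ Z v ≤ 1 / (lam * t) + q * 3 ^ (q ^ 2) := by
  classical
  rw [Fam, mem_filter, mem_powersetCard] at hS
  obtain ⟨⟨_, hSc⟩, hpos⟩ := hS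
  have hsplit : ∑ v ∈ Zᶜ, d φ Z v ≤ ∑ v ∈ Sᶜ, d φ Z v + ∑ v ∈ S, d φ Z v := by
    rw [add_comm, sum_add_sum_compl]
    exact sum_le_sum_of_subset_of_nonneg (subset_univ _) fun v _ _ => d_nonneg h0 Z v
  have h1 : ∑ v ∈ S, d φ Z v ≤ q * 3 ^ (q ^ 2) := by
    calc ∑ v ∈ S, d φ Z v ≤ ∑ v ∈ S, (3:ℝ) ^ (q ^ 2) :=
          sum_le_sum fun v _ => d_le h0 h3 q Z (hSc ▸ card_le_card hZ) v
      _ = q * 3 ^ (q ^ 2) := by rw [sum_const, hSc, nsmul_eq_mul]
  have h2 : ∑ v ∈ Sᶜ, d φ Z v ≤ 1 / (lam * t) := by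
    have h4 : rho t φ S Z ≤ ∑ Z ∈ S.powerset, rho t φ S Z :=
      single_le_sum (f := fun Z => rho t φ S Z) (fun Z _ => rho_nonneg ht.le h0 S Z)
        (mem_powerset.2 hZ)
    have h5 : 1 + ∑ v ∈ Sᶜ, t * d φ Z v ≤ rho t φ S Z :=
      one_add_sum_le _ _ fun v _ => mul_nonneg ht.le (d_nonneg h0 Z v)
    rw [← mul_sum] at h5
    unfold hh at hpos
    have h6 : lam * rho t φ S Z ≤ lam * ∑ Z ∈ S.powerset, rho t φ S Z :=
      mul_le_mul_of_nonneg_left h4 hl.le
    have h7 : lam * (1 + t * ∑ v ∈ Sᶜ, d φ Z v) ≤ lam * rho t φ S Z :=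
      mul_le_mul_of_nonneg_left h5 hl.le
    rw [le_div_iff₀ (mul_pos hl ht)]
    nlinarith
  linarith

/-- The chain bound: the total weight of the sets of `Fam` containing `Y`. -/
lemma chain {lam t : ℝ} (hl : 0 < lam) (ht : 0 < t) {q : ℕ} {φ : Finset V → ℝ}
    (h0 : ∀ e, 0 ≤ φ e) (h3 : ∀ e, φ e ≤ 3) {K : ℝ} (hK : 1 / (lam * t) + q * 3 ^ (q ^ 2) ≤ K) :
    ∀ (m : ℕ) (Y : Finset V), Y.card + m = q →
      ∑ S ∈ (Fam lam t q φ).filter (fun S => Y ⊆ S), w φ S ≤ w φ Y * K ^ m := by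
  classical
  have hKpos : 0 ≤ K := by
    refine le_trans ?_ hK
    positivity
  intro m
  induction m with
  | zero =>
    intro Y hY
    rw [pow_zero, mul_one]
    have : (Fam lam t q φ).filter (fun S => Y ⊆ S) ⊆ {Y} := by
      intro S hS
      rw [mem_filter, Fam, mem_filter, mem_powersetCard] at hS
      rw [mem_singleton]
      exact (eq_of_subset_of_card_le hS.2 (by omega)).symm
    calc _ ≤ ∑ S ∈ {Y}, w φ S := sum_le_sum_of_subset_of_nonneg this fun _ _ _ => w_nonneg h0 _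
      _ = w φ Y := by simp
  | succ m ih =>
    intro Y hY
    by_cases hex : ∃ S ∈ Fam lam t q φ, Y ⊆ S
    · obtain ⟨S0, hS0, hYS0⟩ := hex
      have hdeg := le_trans (deg_le hl ht h0 h3 hS0 hYS0) hK
      have step1 : ∑ S ∈ (Fam lam t q φ).filter (fun S => Y ⊆ S), w φ S ≤
          ∑ v ∈ Yᶜ, ∑ S ∈ (Fam lam t q φ).filter (fun S => insert v Y ⊆ S), w φ S := by
        have : (Fam lam t q φ).filter (fun S => Y ⊆ S) ⊆
            (Yᶜ).biUnion (fun v => (Fam lam t q φ).filter (fun S => insert v Y ⊆ S)) := by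
          intro S hS
          rw [mem_filter] at hS
          have hSc : S.card = q := by
            have := hS.1
            rw [Fam, mem_filter, mem_powersetCard] at this
            exact this.1.2
          obtain ⟨v, hvS, hvY⟩ : ∃ v ∈ S, v ∉ Y := by
            by_contra hcon
            push Not at hcon
            have := card_le_card (show S ⊆ Y from hcon)
            omega
          rw [mem_biUnion]
          refine ⟨v, mem_compl.2 hvY, ?_⟩
          rw [mem_filter]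
          exact ⟨hS.1, insert_subset hvS hS.2⟩
        refine le_trans (sum_le_sum_of_subset_of_nonneg this fun _ _ _ => w_nonneg h0 _) ?_
        exact sum_biUnion_le_sum_sum _ _ _ (fun S => w_nonneg h0 S)
      have step2 : ∑ v ∈ Yᶜ, ∑ S ∈ (Fam lam t q φ).filter (fun S => insert v Y ⊆ S), w φ S ≤
          ∑ v ∈ Yᶜ, w φ Y * d φ Y v * K ^ m := by
        refine sum_le_sum fun v hv => ?_
        rw [mem_compl] at hv
        rw [← w_insert φ Y v hv]
        exact ih (insert v Y) (by rw [card_insert_of_notMem hv]; omega)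
      have step3 : ∑ v ∈ Yᶜ, w φ Y * d φ Y v * K ^ m = w φ Y * K ^ m * ∑ v ∈ Yᶜ, d φ Y v := by
        rw [mul_sum]
        refine sum_congr rfl fun v _ => by ring
      calc _ ≤ _ := step1
        _ ≤ _ := step2
        _ = _ := step3
        _ ≤ w φ Y * K ^ m * K :=
            mul_le_mul_of_nonneg_left hdeg (mul_nonneg (w_nonneg h0 _) (pow_nonneg hKpos _))
        _ = _ := by ring
    · push Not at hex
      have : (Fam lam t q φ).filter (fun S => Y ⊆ S) = ∅ := by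
        rw [filter_eq_empty_iff]
        intro S hS
        exact hex S hS
      rw [this, sum_empty]
      exact mul_nonneg (w_nonneg h0 _) (pow_nonneg hKpos _)

end Pool.Agent.Lib.P90b739
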