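import Pool.Agent.Lib.P90b739.Update

set_option autoImplicit false

open Finset

namespace Pool.Agent.Lib.P90b739

variable {V : Type*} [Fintype V] [DecidableEq V]

/-- the potential of a family -/
noncomputable def G (lam t : ℝ) (F : Finset (Finset V)) (φ : Finset V → ℝ) : ℝ :=
  ∑ S ∈ F, (w φ S - lam * ∑ Z ∈ S.powerset, U t φ S Z)

/-- the potential of a position -/
noncomputable def Lam (lam t : ℝ) (q : ℕ) (φ : Finset V → ℝ) : ℝ :=
  ∑ S ∈ powersetCard q (univ : Finset V), w φ S * max (hh lam t φ S) 0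

lemma term_eq (lam t : ℝ) (φ : Finset V → ℝ) (S : Finset V) :
    w φ S - lam * ∑ Z ∈ S.powerset, U t φ S Z = w φ S * hh lam t φ S := by
  unfold hh U
  rw [← mul_sum]; ring

lemma G_Fam (lam t : ℝ) (q : ℕ) (φ : Finset V → ℝ) :
    G lam t (Fam lam t q φ) φ = Lam lam t q φ := by
  unfold G Lam Fam
  rw [sum_filter]
  refine sum_congr rfl fun S _ => ?_
  rw [term_eq]
  split_ifs with h
  · rw [max_eq_left h.le]
  · rw [max_eq_right (not_lt.1 h), mul_zero]

lemma G_le_Lam {lam t : ℝ} {q : ℕ} {F : Finset (Finset V)} (hF : F ⊆ powersetCard q univ)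
    {φ : Finset V → ℝ} (h0 : ∀ e, 0 ≤ φ e) : G lam t F φ ≤ Lam lam t q φ := by
  unfold G Lam
  calc _ ≤ ∑ S ∈ F, w φ S * max (hh lam t φ S) 0 := by
        refine sum_le_sum fun S _ => ?_
        rw [term_eq]
        exact mul_le_mul_of_nonneg_left (le_max_left _ _) (w_nonneg h0 S)
    _ ≤ _ := sum_le_sum_of_subset_of_nonneg hF fun S _ _ =>
        mul_nonneg (w_nonneg h0 S) (le_max_right _ _)

lemma Lam_le_sum_w {lam t : ℝ} (hl : 0 ≤ lam) (ht : 0 ≤ t) {q : ℕ}
    {φ : Finset V → ℝ} (h0 : ∀ e, 0 ≤ φ e) :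
    Lam lam t q φ ≤ ∑ S ∈ Fam lam t q φ, w φ S := by
  rw [← G_Fam]
  unfold G
  refine sum_le_sum fun S _ => ?_
  have : 0 ≤ lam * ∑ Z ∈ S.powerset, U t φ S Z :=
    mul_nonneg hl (sum_nonneg fun Z _ => U_nonneg ht h0 S Z)
  linarith

/-- the position after a full turn -/
noncomputable def after (φ : Finset V → ℝ) (x y1 y2 : Finset V) : Finset V → ℝ :=
  trip (kill (kill φ y1) y2) x

omit [Fintype V] in
lemma w_after {φ : Finset V → ℝ} (h0 : ∀ e, 0 ≤ φ e) {x y1 y2 : Finset V}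
    (hx : x.card = 3) (h1 : y1.card = 3) (h2 : y2.card = 3)
    (hx1 : x ≠ y1) (hx2 : x ≠ y2) (φx : φ x = 1) (S : Finset V) :
    w φ S - 2 * w (kill φ x) S + w (kill φ y1) S + w (kill φ y2) S
      - (if x ∪ y1 ⊆ S then 2 * w φ S else 0) - (if x ∪ y2 ⊆ S then 2 * w φ S else 0) ≤
    w (after φ x y1 y2) S := by
  have hw := w_nonneg h0 S
  have hkx : w (kill φ x) S = if x ⊆ S then 0 else w φ S := by
    split_ifs with h
    · exact w_kill_mem hx h
    · unfold kill; rw [w_update_not h]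
  have hk1 : w (kill φ y1) S = if y1 ⊆ S then 0 else w φ S := by
    split_ifs with h
    · exact w_kill_mem h1 h
    · unfold kill; rw [w_update_not h]
  have hk2 : w (kill φ y2) S = if y2 ⊆ S then 0 else w φ S := by
    split_ifs with h
    · exact w_kill_mem h2 h
    · unfold kill; rw [w_update_not h]
  have hk12 : w (kill (kill φ y1) y2) S = if y1 ⊆ S ∨ y2 ⊆ S then 0 else w φ S := by
    split_ifs with h
    · rcases h with h | h
      · rw [kill_comm]; exact w_kill_mem h1 h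
      · exact w_kill_mem h2 h
    · push Not at h
      unfold kill; rw [w_update_not h.2, w_update_not h.1]
  have hψx : kill (kill φ y1) y2 x = 1 := by rw [kill_ne _ hx2, kill_ne _ hx1, φx]
  have hA : w (after φ x y1 y2) S = (if x ⊆ S then 3 else 1) * w (kill (kill φ y1) y2) S := by
    unfold after
    split_ifs with h
    · unfold trip; rw [w_update_mem hx h hψx]
    · unfold trip; rw [w_update_not h, one_mul]
  rw [hA, hkx, hk1, hk2, hk12]
  simp only [union_subset_iff]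
  by_cases a : x ⊆ S <;> by_cases b : y1 ⊆ S <;> by_cases c : y2 ⊆ S <;>
    simp only [a, b, c, if_true, if_false, and_true, and_false, or_true, or_false,
      and_self, or_self] <;> linarith

lemma U_after {t : ℝ} (ht : 0 ≤ t) {φ : Finset V → ℝ} (h0 : ∀ e, 0 ≤ φ e) {x y1 y2 : Finset V}
    (hx : x.card = 3) (hx1 : x ≠ y1) (hx2 : x ≠ y2) (φx : φ x = 1) {S Z : Finset V} (hZ : Z ⊆ S) :
    U t (after φ x y1 y2) S Z ≤
      U t φ S Z - 2 * U t (kill φ x) S Z + U t (kill φ y1) S Z + U t (kill φ y2) S Z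
        + D2 t φ y1 y2 S Z := by
  have hψx : kill (kill φ y1) y2 x = 1 := by rw [kill_ne _ hx2, kill_ne _ hx1, φx]
  have hψ0 : ∀ e, 0 ≤ kill (kill φ y1) y2 e := kill_nonneg (kill_nonneg h0 y1) y2
  have hψ : ∀ e, kill (kill φ y1) y2 e ≤ φ e := fun e =>
    le_trans (kill_le (kill_nonneg h0 y1) y2 e) (kill_le h0 y1 e)
  unfold after
  rw [U_trip hZ hx hψx]
  have := U_super ht hZ hx hψ0 hψ φx hψx
  unfold D2
  linarith

/-- Weighted count of the sets meeting `e ∪ f` in many points. -/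
lemma gam_sum {lam t : ℝ} (hl : 0 < lam) (ht : 0 < t) {q : ℕ} (hq : 4 ≤ q) {φ : Finset V → ℝ}
    (h0 : ∀ e, 0 ≤ φ e) (h3 : ∀ e, φ e ≤ 3) {M E : ℝ}
    (hM : 1 / (lam * t) + q * 3 ^ (q ^ 2) ≤ M)
    (hE4 : M ^ (q - 4) ≤ E) (hE3 : (t * 3 ^ (q ^ 2)) * M ^ (q - 3) ≤ E)
    (hE2 : (t * 3 ^ (q ^ 2)) ^ 2 * M ^ (q - 2) ≤ E)
    {e f : Finset V} (he : e.card = 3) (hf : f.card = 3) :
    ∑ S ∈ Fam lam t q φ, gam (t * 3 ^ (q ^ 2)) (S ∩ (e ∪ f)).card * w φ S ≤ 5184 * E := by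
  classical
  set τ : ℝ := t * 3 ^ (q ^ 2) with hτ
  have hτ0 : 0 ≤ τ := by positivity
  have hM0 : 0 ≤ M := le_trans (by positivity) hM
  have hE0 : 0 ≤ E := le_trans (by positivity) hE4
  set P : Finset (Finset V) := (e ∪ f).powerset.filter (fun Y => 2 ≤ Y.card ∧ Y.card ≤ 4) with hP
  have step1 : ∀ S ∈ Fam lam t q φ, gam τ (S ∩ (e ∪ f)).card * w φ S ≤
      ∑ Y ∈ P, (if Y ⊆ S then τ ^ (4 - Y.card) * w φ S else 0) := by
    intro S _
    have hw := w_nonneg h0 S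
    have key : ∀ k, 2 ≤ k → k ≤ 4 → k ≤ (S ∩ (e ∪ f)).card → gam τ (S ∩ (e ∪ f)).card = τ ^ (4 - k) →
        gam τ (S ∩ (e ∪ f)).card * w φ S ≤
          ∑ Y ∈ P, (if Y ⊆ S then τ ^ (4 - Y.card) * w φ S else 0) := by
      intro k hk2 hk4 hkn hg
      obtain ⟨Y, hYs, hYc⟩ := exists_subset_card_eq hkn
      have hYP : Y ∈ P := by
        rw [hP, mem_filter, mem_powerset]
        exact ⟨hYs.trans inter_subset_right, by omega, by omega⟩
      have hYS : Y ⊆ S := hYs.trans inter_subset_left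
      have := single_le_sum (f := fun Y => (if Y ⊆ S then τ ^ (4 - Y.card) * w φ S else 0))
        (fun Y _ => by
          show (0:ℝ) ≤ (if Y ⊆ S then τ ^ (4 - Y.card) * w φ S else 0)
          split_ifs
          · exact mul_nonneg (pow_nonneg hτ0 _) hw
          · exact le_refl _) hYP
      simp only [hYS, if_true, hYc] at this
      rw [hg]; exact this
    by_cases c4 : 4 ≤ (S ∩ (e ∪ f)).card
    · exact key 4 (by norm_num) (by norm_num) c4 (by simp [gam, c4])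
    · by_cases c3 : (S ∩ (e ∪ f)).card = 3
      · exact key 3 (by norm_num) (by norm_num) (by omega) (by simp [gam, c3])
      · by_cases c2 : (S ∩ (e ∪ f)).card = 2
        · exact key 2 (by norm_num) (by norm_num) (by omega) (by simp [gam, c2])
        · rw [gam, if_neg c4, if_neg c3, if_neg c2, zero_mul]
          refine sum_nonneg fun Y _ => ?_
          split_ifs
          · exact mul_nonneg (pow_nonneg hτ0 _) hw
          · exact le_refl _
  have step2 : ∑ S ∈ Fam lam t q φ, ∑ Y ∈ P, (if Y ⊆ S then τ ^ (4 - Y.card) * w φ S else 0) =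
      ∑ Y ∈ P, τ ^ (4 - Y.card) * ∑ S ∈ (Fam lam t q φ).filter (fun S => Y ⊆ S), w φ S := by
    rw [sum_comm]
    refine sum_congr rfl fun Y _ => ?_
    rw [sum_filter, mul_sum]
    refine sum_congr rfl fun S _ => ?_
    split_ifs <;> simp
  have step3 : ∀ Y ∈ P, τ ^ (4 - Y.card) * ∑ S ∈ (Fam lam t q φ).filter (fun S => Y ⊆ S), w φ S ≤
      81 * E := by
    intro Y hY
    rw [hP, mem_filter, mem_powerset] at hY
    obtain ⟨_, hY2, hY4⟩ := hY
    have hc := chain hl ht h0 h3 hM (q - Y.card) Y (by omega)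
    have hwY := w_le h0 h3 Y hY4
    have hwY0 := w_nonneg h0 Y
    have hτp : 0 ≤ τ ^ (4 - Y.card) := pow_nonneg hτ0 _
    have hMp : 0 ≤ M ^ (q - Y.card) := pow_nonneg hM0 _
    have hEk : τ ^ (4 - Y.card) * M ^ (q - Y.card) ≤ E := by
      have : Y.card = 2 ∨ Y.card = 3 ∨ Y.card = 4 := by omega
      rcases this with h | h | h
      · rw [h]; exact hE2
      · rw [h]; simpa using hE3
      · rw [h]; simpa using hE4
    calc τ ^ (4 - Y.card) * ∑ S ∈ (Fam lam t q φ).filter (fun S => Y ⊆ S), w φ S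
        ≤ τ ^ (4 - Y.card) * (w φ Y * M ^ (q - Y.card)) := mul_le_mul_of_nonneg_left hc hτp
      _ = w φ Y * (τ ^ (4 - Y.card) * M ^ (q - Y.card)) := by ring
      _ ≤ 81 * E := mul_le_mul hwY hEk (mul_nonneg hτp hMp) (by norm_num)
  have hPcard : (P.card : ℝ) ≤ 64 := by
    have h1 : P.card ≤ (e ∪ f).powerset.card := card_filter_le _ _
    rw [card_powerset] at h1
    have h2 : (e ∪ f).card ≤ 6 := by
      have := card_union_le e f; omega
    have h4 : 2 ^ (e ∪ f).card ≤ 2 ^ 6 := Nat.pow_le_pow_right (by norm_num) h2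
    exact_mod_cast h1.trans h4
  calc _ ≤ ∑ S ∈ Fam lam t q φ, ∑ Y ∈ P, (if Y ⊆ S then τ ^ (4 - Y.card) * w φ S else 0) :=
        sum_le_sum step1
    _ = _ := step2
    _ ≤ ∑ Y ∈ P, 81 * E := sum_le_sum step3
    _ = P.card * (81 * E) := by rw [sum_const, nsmul_eq_mul]
    _ ≤ 64 * (81 * E) := mul_le_mul_of_nonneg_right hPcard (by positivity)
    _ = 5184 * E := by ring

/-- The turn lemma. -/
lemma turn {lam t : ℝ} (hl : 0 < lam) (ht : 0 < t) {q : ℕ} (hq : 4 ≤ q) {φ : Finset V → ℝ}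
    (h0 : ∀ e, 0 ≤ φ e) (h3 : ∀ e, φ e ≤ 3) {M E : ℝ}
    (hM : 1 / (lam * t) + q * 3 ^ (q ^ 2) ≤ M)
    (hE4 : M ^ (q - 4) ≤ E) (hE3 : (t * 3 ^ (q ^ 2)) * M ^ (q - 3) ≤ E)
    (hE2 : (t * 3 ^ (q ^ 2)) ^ 2 * M ^ (q - 2) ≤ E)
    {x y1 y2 : Finset V}
    (hx : x.card = 3) (h1 : y1.card = 3) (h2 : y2.card = 3)
    (hx1 : x ≠ y1) (hx2 : x ≠ y2) (h12 : y1 ≠ y2) (φx : φ x = 1) (φ1 : φ y1 = 1) (φ2 : φ y2 = 1)
    (hm1 : G lam t (Fam lam t q φ) (kill φ x) ≤ G lam t (Fam lam t q φ) (kill φ y1))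
    (hm2 : G lam t (Fam lam t q φ) (kill φ x) ≤ G lam t (Fam lam t q φ) (kill φ y2)) :
    Lam lam t q φ - 25920 * E ≤ Lam lam t q (after φ x y1 y2) := by
  classical
  set F := Fam lam t q φ with hF
  set τ : ℝ := t * 3 ^ (q ^ 2) with hτ
  have hτ0 : 0 ≤ τ := by positivity
  have hFc : ∀ S ∈ F, S.card = q ∧ 0 < hh lam t φ S := by
    intro S hS
    rw [hF, Fam, mem_filter, mem_powersetCard] at hS
    exact ⟨hS.1.2, hS.2⟩
  have hA0 : ∀ e, 0 ≤ after φ x y1 y2 e := by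
    intro e
    unfold after
    by_cases h : e = x
    · subst h; rw [trip_same]; norm_num
    · rw [trip_ne _ h]; exact kill_nonneg (kill_nonneg h0 y1) y2 e
  have hFsub : F ⊆ powersetCard q univ := by rw [hF]; exact filter_subset _ _
  have hle : G lam t F (after φ x y1 y2) ≤ Lam lam t q (after φ x y1 y2) :=
    G_le_Lam hFsub hA0
  have g1 := gam_sum hl ht hq h0 h3 hM hE4 hE3 hE2 hx h1
  have g2 := gam_sum hl ht hq h0 h3 hM hE4 hE3 hE2 hx h2
  have g3 := gam_sum hl ht hq h0 h3 hM hE4 hE3 hE2 h1 h2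
  rw [← hF] at g1 g2 g3
  -- pointwise inequality
  have hpt : ∀ S ∈ F,
      (w φ S - lam * ∑ Z ∈ S.powerset, U t φ S Z)
      - 2 * (w (kill φ x) S - lam * ∑ Z ∈ S.powerset, U t (kill φ x) S Z)
      + (w (kill φ y1) S - lam * ∑ Z ∈ S.powerset, U t (kill φ y1) S Z)
      + (w (kill φ y2) S - lam * ∑ Z ∈ S.powerset, U t (kill φ y2) S Z)
      - 2 * (gam τ (S ∩ (x ∪ y1)).card * w φ S) - 2 * (gam τ (S ∩ (x ∪ y2)).card * w φ S)
      - gam τ (S ∩ (y1 ∪ y2)).card * w φ S ≤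
      w (after φ x y1 y2) S - lam * ∑ Z ∈ S.powerset, U t (after φ x y1 y2) S Z := by
    intro S hS
    obtain ⟨hSc, hpos⟩ := hFc S hS
    have hw := w_nonneg h0 S
    have hwa := w_after h0 hx h1 h2 hx1 hx2 φx S
    have big : ∀ y : Finset V, y.card = 3 → x ≠ y →
        (if x ∪ y ⊆ S then 2 * w φ S else 0) ≤ 2 * (gam τ (S ∩ (x ∪ y)).card * w φ S) := by
      intro y hy hxy
      split_ifs with h
      · have h6 : S ∩ (x ∪ y) = x ∪ y := inter_eq_right.2 h
        have h7 : 4 ≤ (x ∪ y).card := by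
          by_contra hcon
          have h7 : x = x ∪ y := eq_of_subset_of_card_le subset_union_left (by omega)
          have h8 : y = x ∪ y := eq_of_subset_of_card_le subset_union_right (by omega)
          exact hxy (h7.trans h8.symm)
        rw [h6, gam, if_pos h7, one_mul]
      · have := mul_nonneg (gam_nonneg hτ0 (S ∩ (x ∪ y)).card) hw
        linarith
    have b1 := big y1 h1 hx1
    have b2 := big y2 h2 hx2
    have hU : ∑ Z ∈ S.powerset, U t (after φ x y1 y2) S Z ≤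
        ∑ Z ∈ S.powerset, (U t φ S Z - 2 * U t (kill φ x) S Z + U t (kill φ y1) S Z
          + U t (kill φ y2) S Z + gam τ (S ∩ (y1 ∪ y2)).card * U t φ S Z) := by
      refine sum_le_sum fun Z hZ => ?_
      rw [mem_powerset] at hZ
      have c1 := U_after ht.le h0 hx hx1 hx2 φx hZ (y1 := y1) (y2 := y2)
      have c2 := D2_bound ht.le hZ hSc h0 h3 h1 h2 h12 φ1 φ2
      linarith
    rw [sum_add_distrib, sum_add_distrib, sum_add_distrib, sum_sub_distrib, ← mul_sum, ← mul_sum]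
      at hU
    have hU2 := mul_le_mul_of_nonneg_left hU hl.le
    have hlast : lam * (gam τ (S ∩ (y1 ∪ y2)).card * ∑ Z ∈ S.powerset, U t φ S Z) ≤
        gam τ (S ∩ (y1 ∪ y2)).card * w φ S := by
      have d1 : lam * ∑ Z ∈ S.powerset, U t φ S Z ≤ w φ S := by
        have e1 : w φ S - lam * ∑ Z ∈ S.powerset, U t φ S Z = w φ S * hh lam t φ S := term_eq _ _ _ _
        have e2 : 0 ≤ w φ S * hh lam t φ S := mul_nonneg hw hpos.le
        linarith
      calc lam * (gam τ (S ∩ (y1 ∪ y2)).card * ∑ Z ∈ S.powerset, U t φ S Z)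
          = gam τ (S ∩ (y1 ∪ y2)).card * (lam * ∑ Z ∈ S.powerset, U t φ S Z) := by ring
        _ ≤ _ := mul_le_mul_of_nonneg_left d1 (gam_nonneg hτ0 _)
    nlinarith [hwa, b1, b2, hU2, hlast]
  have hsum := sum_le_sum hpt
  simp only [sum_sub_distrib, sum_add_distrib, ← mul_sum] at hsum
  have eG : ∀ ψ : Finset V → ℝ, G lam t F ψ =
      ∑ S ∈ F, w ψ S - lam * ∑ S ∈ F, ∑ Z ∈ S.powerset, U t ψ S Z := by
    intro ψ
    unfold G
    rw [sum_sub_distrib, ← mul_sum]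
  rw [← eG, ← eG, ← eG, ← eG, ← eG] at hsum
  have hGF : G lam t F φ = Lam lam t q φ := by rw [hF]; exact G_Fam _ _ _ _
  rw [← hGF]
  linarith

end Pool.Agent.Lib.P90b739
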