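import Pool.Agent.Lib.P90b739.Potential

set_option autoImplicit false

open Finset

namespace Pool.Agent.Lib.P90b739

variable {V : Type*} [Fintype V] [DecidableEq V]

omit [Fintype V] in
lemma w_update_not {φ : Finset V → ℝ} {S x : Finset V} (h : ¬ x ⊆ S) (s : ℝ) :
    w (Function.update φ x s) S = w φ S := by
  unfold w
  refine prod_congr rfl fun e he => ?_
  rw [mem_powersetCard] at he
  rw [Function.update_of_ne]
  rintro rfl
  exact h he.1

omit [Fintype V] in
lemma w_update_mem {φ : Finset V → ℝ} {S x : Finset V} (hx : x.card = 3) (h : x ⊆ S)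
    (hφ : φ x = 1) (s : ℝ) : w (Function.update φ x s) S = s * w φ S := by
  unfold w
  have hm : x ∈ S.powersetCard 3 := mem_powersetCard.2 ⟨h, hx⟩
  rw [← mul_prod_erase _ _ hm, ← mul_prod_erase _ φ hm, Function.update_self, hφ, one_mul]
  congr 1
  refine prod_congr rfl fun e he => ?_
  rw [Function.update_of_ne (ne_of_mem_erase he)]

omit [Fintype V] in
lemma w_kill_mem {φ : Finset V → ℝ} {S x : Finset V} (hx : x.card = 3) (h : x ⊆ S) :
    w (kill φ x) S = 0 := by
  unfold w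
  exact prod_eq_zero (mem_powersetCard.2 ⟨h, hx⟩) (kill_same _ _)

/-- `x` crosses `Z` with outer vertex `v` outside `S`. -/
def Cross (S Z x : Finset V) (v : V) : Prop := v ∉ S ∧ ∃ p ∈ Z.powersetCard 2, insert v p = x

omit [Fintype V] in
lemma d_update_not {φ : Finset V → ℝ} {Z x : Finset V} {v : V}
    (h : ∀ p ∈ Z.powersetCard 2, insert v p ≠ x) (s : ℝ) :
    d (Function.update φ x s) Z v = d φ Z v := by
  unfold d
  refine prod_congr rfl fun p hp => ?_
  rw [Function.update_of_ne (h p hp)]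

omit [Fintype V] in
lemma insert_inj {Z p p' : Finset V} {v : V} (hv : v ∉ Z) (hp : p ⊆ Z) (hp' : p' ⊆ Z)
    (h : insert v p = insert v p') : p = p' := by
  have h1 : v ∉ p := fun h => hv (hp h)
  have h2 : v ∉ p' := fun h => hv (hp' h)
  rw [← erase_insert h1, ← erase_insert h2, h]

omit [Fintype V] in
lemma d_update_mem {φ : Finset V → ℝ} {Z x p0 : Finset V} {v : V} (hv : v ∉ Z)
    (hp0 : p0 ∈ Z.powersetCard 2) (hx : insert v p0 = x) (hφ : φ x = 1) (s : ℝ) :
    d (Function.update φ x s) Z v = s * d φ Z v := by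
  unfold d
  rw [← mul_prod_erase _ _ hp0, ← mul_prod_erase _ (fun p => φ (insert v p)) hp0]
  simp only [hx, Function.update_self, hφ, one_mul]
  congr 1
  refine prod_congr rfl fun p hp => ?_
  rw [mem_erase] at hp
  rw [Function.update_of_ne]
  intro h
  rw [← hx] at h
  exact hp.1 (insert_inj hv (mem_powersetCard.1 hp.2).1 (mem_powersetCard.1 hp0).1 h)

lemma rho_update_not {t : ℝ} {φ : Finset V → ℝ} {S Z x : Finset V}
    (h : ∀ v, ¬ Cross S Z x v) (s : ℝ) :
    rho t (Function.update φ x s) S Z = rho t φ S Z := by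
  unfold rho
  refine prod_congr rfl fun v hv => ?_
  rw [d_update_not]
  intro p hp hpx
  exact h v ⟨mem_compl.1 hv, p, hp, hpx⟩

/-- the part of `rho` not involving the outer vertex `v` -/
noncomputable def rest (t : ℝ) (φ : Finset V → ℝ) (S Z : Finset V) (v : V) : ℝ :=
  ∏ u ∈ Sᶜ.erase v, (1 + t * d φ Z u)

lemma rho_eq_rest (t : ℝ) (φ : Finset V → ℝ) {S Z : Finset V} {v : V} (hv : v ∉ S) :
    rho t φ S Z = (1 + t * d φ Z v) * rest t φ S Z v := by
  unfold rho rest
  rw [mul_prod_erase _ (fun u => 1 + t * d φ Z u) (mem_compl.2 hv)]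

lemma rest_nonneg {t : ℝ} (ht : 0 ≤ t) {φ : Finset V → ℝ} (h0 : ∀ e, 0 ≤ φ e)
    (S Z : Finset V) (v : V) : 0 ≤ rest t φ S Z v := by
  unfold rest
  refine prod_nonneg fun u _ => ?_
  have := mul_nonneg ht (d_nonneg h0 Z u); linarith

lemma rest_mono {t : ℝ} (ht : 0 ≤ t) {φ ψ : Finset V → ℝ} (h0 : ∀ e, 0 ≤ φ e)
    (h : ∀ e, φ e ≤ ψ e) (S Z : Finset V) (v : V) :
    rest t φ S Z v ≤ rest t ψ S Z v := by
  unfold rest
  refine prod_le_prod (fun u _ => ?_) fun u _ => ?_
  · have := mul_nonneg ht (d_nonneg h0 Z u); linarith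
  · have := mul_le_mul_of_nonneg_left (d_mono h0 h Z u) ht; linarith

lemma rest_update {t : ℝ} {φ : Finset V → ℝ} {S Z x : Finset V} {v : V} (hZ : Z ⊆ S)
    (hc : Cross S Z x v) (s : ℝ) :
    rest t (Function.update φ x s) S Z v = rest t φ S Z v := by
  unfold rest
  refine prod_congr rfl fun u hu => ?_
  rw [d_update_not]
  intro p hp hpx
  rw [mem_erase, mem_compl] at hu
  obtain ⟨_, p', hp', hp'x⟩ := hc
  have h1 : u ∈ x := hpx ▸ mem_insert_self _ _
  rw [← hp'x, mem_insert] at h1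
  rcases h1 with h1 | h1
  · exact hu.1 h1
  · exact hu.2 (hZ ((mem_powersetCard.1 hp').1 h1))

lemma rho_update_cross {t : ℝ} {φ : Finset V → ℝ} {S Z x : Finset V} {v : V} (hZ : Z ⊆ S)
    (hc : Cross S Z x v) (hφ : φ x = 1) (s : ℝ) :
    rho t (Function.update φ x s) S Z = (1 + t * (s * d φ Z v)) * rest t φ S Z v := by
  rw [rho_eq_rest _ _ hc.1, rest_update hZ hc]
  obtain ⟨hv, p', hp', hp'x⟩ := hc
  rw [d_update_mem (fun h => hv (hZ h)) hp' hp'x hφ]

omit [Fintype V] in
lemma not_cross_of_subset {S Z x : Finset V} (h : x ⊆ S) (v : V) : ¬ Cross S Z x v := by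
  rintro ⟨hv, p, _, hpx⟩
  exact hv (h (hpx ▸ mem_insert_self _ _))

omit [Fintype V] in
lemma not_subset_of_cross {S Z x : Finset V} {v : V} (h : Cross S Z x v) : ¬ x ⊆ S :=
  fun hh => not_cross_of_subset hh v h

/-- the basic term -/
noncomputable def U (t : ℝ) (φ : Finset V → ℝ) (S Z : Finset V) : ℝ := w φ S * rho t φ S Z

lemma U_nonneg {t : ℝ} (ht : 0 ≤ t) {φ : Finset V → ℝ} (h0 : ∀ e, 0 ≤ φ e) (S Z : Finset V) :
    0 ≤ U t φ S Z := mul_nonneg (w_nonneg h0 S) (rho_nonneg ht h0 S Z)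

lemma U_mono {t : ℝ} (ht : 0 ≤ t) {φ ψ : Finset V → ℝ} (h0 : ∀ e, 0 ≤ φ e)
    (h : ∀ e, φ e ≤ ψ e) (S Z : Finset V) : U t φ S Z ≤ U t ψ S Z := by
  unfold U
  exact mul_le_mul (w_mono h0 h S) (rho_mono ht h0 h S Z) (rho_nonneg ht h0 S Z)
    (le_trans (w_nonneg h0 S) (w_mono h0 h S))

/-- (A) affinity. -/
lemma U_trip {t : ℝ} {φ : Finset V → ℝ} {S Z x : Finset V} (hZ : Z ⊆ S) (hx : x.card = 3)
    (hφ : φ x = 1) :
    U t (trip φ x) S Z = U t φ S Z + 2 * (U t φ S Z - U t (kill φ x) S Z) := by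
  unfold U
  by_cases hxS : x ⊆ S
  · rw [w_kill_mem hx hxS]
    unfold trip
    rw [w_update_mem hx hxS hφ, rho_update_not (not_cross_of_subset hxS)]
    ring
  · unfold trip kill
    rw [w_update_not hxS, w_update_not hxS]
    by_cases hc : ∃ v, Cross S Z x v
    · obtain ⟨v, hc⟩ := hc
      rw [rho_update_cross hZ hc hφ, rho_update_cross hZ hc hφ, rho_eq_rest _ _ hc.1]
      ring
    · push Not at hc
      rw [rho_update_not hc, rho_update_not hc]
      ring

/-- (B) the `x`-derivative is monotone. -/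
lemma U_super {t : ℝ} (ht : 0 ≤ t) {φ ψ : Finset V → ℝ} {S Z x : Finset V} (hZ : Z ⊆ S)
    (hx : x.card = 3) (h0 : ∀ e, 0 ≤ ψ e) (h : ∀ e, ψ e ≤ φ e) (hφ : φ x = 1) (hψ : ψ x = 1) :
    U t ψ S Z - U t (kill ψ x) S Z ≤ U t φ S Z - U t (kill φ x) S Z := by
  have h0' : ∀ e, 0 ≤ φ e := fun e => le_trans (h0 e) (h e)
  by_cases hxS : x ⊆ S
  · have e1 : U t (kill ψ x) S Z = 0 := by unfold U; rw [w_kill_mem hx hxS, zero_mul]
    have e2 : U t (kill φ x) S Z = 0 := by unfold U; rw [w_kill_mem hx hxS, zero_mul]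
    rw [e1, e2, sub_zero, sub_zero]
    exact U_mono ht h0 h S Z
  · unfold U kill
    rw [w_update_not hxS, w_update_not hxS]
    by_cases hc : ∃ v, Cross S Z x v
    · obtain ⟨v, hc⟩ := hc
      rw [rho_update_cross hZ hc hφ, rho_update_cross hZ hc hψ, rho_eq_rest _ _ hc.1,
        rho_eq_rest _ _ hc.1]
      have a1 : w ψ S * ((1 + t * d ψ Z v) * rest t ψ S Z v) -
          w ψ S * ((1 + t * (0 * d ψ Z v)) * rest t ψ S Z v) =
          w ψ S * (t * d ψ Z v * rest t ψ S Z v) := by ring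
      have a2 : w φ S * ((1 + t * d φ Z v) * rest t φ S Z v) -
          w φ S * ((1 + t * (0 * d φ Z v)) * rest t φ S Z v) =
          w φ S * (t * d φ Z v * rest t φ S Z v) := by ring
      rw [a1, a2]
      have b1 := w_mono h0 h S
      have b2 : t * d ψ Z v ≤ t * d φ Z v := mul_le_mul_of_nonneg_left (d_mono h0 h Z v) ht
      have b3 := rest_mono ht h0 h S Z v
      have c1 := w_nonneg h0 S
      have c2 : 0 ≤ t * d ψ Z v := mul_nonneg ht (d_nonneg h0 Z v)
      have c3 := rest_nonneg ht h0 S Z v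
      refine mul_le_mul b1 (mul_le_mul b2 b3 c3 (le_trans c2 b2)) (mul_nonneg c2 c3)
        (le_trans c1 b1)
    · push Not at hc
      rw [rho_update_not hc, rho_update_not hc]
      simp

/-- (C2) single difference bound. -/
lemma U_single {t : ℝ} (ht : 0 ≤ t) {φ : Finset V → ℝ} {q : ℕ} {S Z x : Finset V} (hZ : Z ⊆ S)
    (hS : S.card = q) (h0 : ∀ e, 0 ≤ φ e) (h3 : ∀ e, φ e ≤ 3)
    (hφ : φ x = 1) (hxS : ¬ x ⊆ S) :
    U t φ S Z - U t (kill φ x) S Z ≤ (t * 3 ^ (q ^ 2)) * U t φ S Z := by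
  have hU := U_nonneg ht h0 S Z
  have hW : (0:ℝ) ≤ t * 3 ^ (q ^ 2) := by positivity
  by_cases hc : ∃ v, Cross S Z x v
  · obtain ⟨v, hc⟩ := hc
    have hd := d_le h0 h3 q Z (hS ▸ card_le_card hZ) v
    have hd0 := d_nonneg h0 Z v
    have hr := rest_nonneg ht h0 S Z v
    have hw := w_nonneg h0 S
    unfold U kill
    rw [w_update_not hxS, rho_update_cross hZ hc hφ, rho_eq_rest _ _ hc.1]
    have a1 : w φ S * ((1 + t * d φ Z v) * rest t φ S Z v) -
          w φ S * ((1 + t * (0 * d φ Z v)) * rest t φ S Z v) =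
          (t * d φ Z v) * (w φ S * rest t φ S Z v) := by ring
    have a2 : t * 3 ^ (q ^ 2) * (w φ S * ((1 + t * d φ Z v) * rest t φ S Z v)) =
        (t * 3 ^ (q ^ 2)) * (1 + t * d φ Z v) * (w φ S * rest t φ S Z v) := by ring
    rw [a1, a2]
    refine mul_le_mul_of_nonneg_right ?_ (mul_nonneg hw hr)
    have b1 : t * d φ Z v ≤ t * 3 ^ (q ^ 2) := mul_le_mul_of_nonneg_left hd ht
    have b2 : 0 ≤ t * d φ Z v := mul_nonneg ht hd0
    nlinarith
  · push Not at hc
    unfold U kill
    rw [w_update_not hxS, rho_update_not hc, sub_self]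
    exact mul_nonneg hW hU

/-- the mixed difference -/
noncomputable def D2 (t : ℝ) (φ : Finset V → ℝ) (e f S Z : Finset V) : ℝ :=
  U t φ S Z - U t (kill φ e) S Z - U t (kill φ f) S Z + U t (kill (kill φ e) f) S Z

omit [Fintype V] in
lemma kill_comm (φ : Finset V → ℝ) {e f : Finset V} : kill (kill φ e) f = kill (kill φ f) e := by
  unfold kill
  by_cases h : e = f
  · rw [h]
  · rw [Function.update_comm (Ne.symm h)]

lemma D2_comm (t : ℝ) (φ : Finset V → ℝ) (e f S Z : Finset V) :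
    D2 t φ e f S Z = D2 t φ f e S Z := by
  unfold D2
  rw [kill_comm (e := e) (f := f)]
  ring

lemma D2_le_single {t : ℝ} (ht : 0 ≤ t) {φ : Finset V → ℝ} (h0 : ∀ e, 0 ≤ φ e)
    (e f S Z : Finset V) : D2 t φ e f S Z ≤ U t φ S Z - U t (kill φ e) S Z := by
  unfold D2
  have := U_mono ht (kill_nonneg (kill_nonneg h0 e) f)
    (show ∀ g, kill (kill φ e) f g ≤ kill φ f g from by
      rw [kill_comm]; exact kill_le (kill_nonneg h0 f) e) S Z
  linarith

lemma D2_le {t : ℝ} (ht : 0 ≤ t) {φ : Finset V → ℝ} (h0 : ∀ e, 0 ≤ φ e)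
    (e f S Z : Finset V) : D2 t φ e f S Z ≤ U t φ S Z := by
  have h1 := D2_le_single ht h0 e f S Z
  have h2 := U_nonneg ht (kill_nonneg h0 e) S Z
  linarith

lemma D2_inactive {t : ℝ} {φ : Finset V → ℝ} {e f S Z : Finset V} (heS : ¬ e ⊆ S)
    (hc : ∀ v, ¬ Cross S Z e v) : D2 t φ e f S Z = 0 := by
  unfold D2
  rw [kill_comm]
  have h1 : ∀ ψ : Finset V → ℝ, U t (kill ψ e) S Z = U t ψ S Z := by
    intro ψ
    unfold U kill
    rw [w_update_not heS, rho_update_not hc]
  rw [h1, h1]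
  ring

/-- (C4): both cross, with different outer vertices. -/
lemma D2_cross_cross {t : ℝ} (ht : 0 ≤ t) {φ : Finset V → ℝ} {q : ℕ} {S Z e f : Finset V}
    (hZ : Z ⊆ S) (hS : S.card = q) (h0 : ∀ e, 0 ≤ φ e) (h3 : ∀ e, φ e ≤ 3)
    (he : φ e = 1) (hf : φ f = 1) {v v' : V} (hv : Cross S Z e v) (hv' : Cross S Z f v')
    (hne : v ≠ v') :
    D2 t φ e f S Z ≤ (t * 3 ^ (q ^ 2)) ^ 2 * U t φ S Z := by
  have heS := not_subset_of_cross hv
  have hfS := not_subset_of_cross hv'
  have hef : f ≠ e := by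
    rintro rfl
    obtain ⟨h1, p, hp, hpx⟩ := hv
    obtain ⟨h1', p', hp', hpx'⟩ := hv'
    have : v ∈ insert v' p' := by rw [hpx', ← hpx]; exact mem_insert_self _ _
    rw [mem_insert] at this
    rcases this with h | h
    · exact hne h
    · exact h1 (hZ ((mem_powersetCard.1 hp').1 h))
  have hfe : kill φ e f = 1 := by rw [kill_ne _ hef, hf]
  have hdv : d (kill φ e) Z v' = d φ Z v' := by
    unfold kill
    apply d_update_not
    intro p hp hpx
    obtain ⟨h1, p2, hp2, hpx2⟩ := hv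
    have : v' ∈ insert v p2 := by rw [hpx2, ← hpx]; exact mem_insert_self _ _
    rw [mem_insert] at this
    rcases this with h | h
    · exact hne h.symm
    · exact hv'.1 (hZ ((mem_powersetCard.1 hp2).1 h))
  -- common rest
  set R : ℝ := ∏ u ∈ (Sᶜ.erase v).erase v', (1 + t * d φ Z u) with hR
  have hv'm : v' ∈ Sᶜ.erase v := mem_erase.2 ⟨hne.symm, mem_compl.2 hv'.1⟩
  have hvm : v ∈ Sᶜ.erase v' := mem_erase.2 ⟨hne, mem_compl.2 hv.1⟩
  have r1 : rest t φ S Z v = (1 + t * d φ Z v') * R := by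
    unfold rest
    rw [hR, mul_prod_erase _ (fun u => 1 + t * d φ Z u) hv'm]
  have r2 : rest t φ S Z v' = (1 + t * d φ Z v) * R := by
    unfold rest
    rw [hR, erase_right_comm, mul_prod_erase _ (fun u => 1 + t * d φ Z u) hvm]
  have hRnn : 0 ≤ R := prod_nonneg fun u _ => by
    have := mul_nonneg ht (d_nonneg h0 Z u); linarith
  have u0 : U t φ S Z = w φ S * ((1 + t * d φ Z v) * ((1 + t * d φ Z v') * R)) := by
    unfold U; rw [rho_eq_rest _ _ hv.1, r1]
  have u1 : U t (kill φ e) S Z = w φ S * ((1 + t * d φ Z v') * R) := by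
    unfold U kill
    rw [w_update_not heS, rho_update_cross hZ hv he, r1]; ring
  have u2 : U t (kill φ f) S Z = w φ S * ((1 + t * d φ Z v) * R) := by
    unfold U kill
    rw [w_update_not hfS, rho_update_cross hZ hv' hf, r2]; ring
  have u3 : U t (kill (kill φ e) f) S Z = w φ S * R := by
    have z1 : kill (kill φ e) f = Function.update (kill φ e) f 0 := rfl
    unfold U
    rw [z1, w_update_not hfS, rho_update_cross hZ hv' hfe]
    have z2 : w (kill φ e) S = w φ S := by unfold kill; rw [w_update_not heS]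
    have z3 : rest t (kill φ e) S Z v' = R := by
      unfold rest
      rw [hR, erase_right_comm, ← mul_prod_erase _ (fun u => 1 + t * d (kill φ e) Z u) hvm]
      have z4 : d (kill φ e) Z v = 0 := by
        obtain ⟨h1, p, hp, hpx⟩ := hv
        unfold kill
        rw [d_update_mem (fun h => h1 (hZ h)) hp hpx he, zero_mul]
      rw [z4, mul_zero, add_zero, one_mul]
      refine prod_congr rfl fun u hu => ?_
      rw [mem_erase, mem_erase, mem_compl] at hu
      congr 2
      unfold kill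
      apply d_update_not
      intro p hp hpx
      obtain ⟨h1, p2, hp2, hpx2⟩ := hv
      have : u ∈ insert v p2 := by rw [hpx2, ← hpx]; exact mem_insert_self _ _
      rw [mem_insert] at this
      rcases this with h | h
      · exact hu.1 h
      · exact hu.2.2 (hZ ((mem_powersetCard.1 hp2).1 h))
    rw [z2, z3]; ring
  have hD : D2 t φ e f S Z = (t * d φ Z v) * (t * d φ Z v') * (w φ S * R) := by
    unfold D2
    rw [u0, u1, u2, u3]; ring
  rw [hD, u0]
  have hw := w_nonneg h0 S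
  have hdv1 := d_le h0 h3 q Z (hS ▸ card_le_card hZ) v
  have hdv2 := d_le h0 h3 q Z (hS ▸ card_le_card hZ) v'
  have hd1 := d_nonneg h0 Z v
  have hd2 := d_nonneg h0 Z v'
  have b1 : t * d φ Z v ≤ t * 3 ^ (q ^ 2) := mul_le_mul_of_nonneg_left hdv1 ht
  have b2 : t * d φ Z v' ≤ t * 3 ^ (q ^ 2) := mul_le_mul_of_nonneg_left hdv2 ht
  have c1 : 0 ≤ t * d φ Z v := mul_nonneg ht hd1
  have c2 : 0 ≤ t * d φ Z v' := mul_nonneg ht hd2
  have hwR : 0 ≤ w φ S * R := mul_nonneg hw hRnn
  have e1 : (t * 3 ^ (q ^ 2)) ^ 2 * (w φ S * ((1 + t * d φ Z v) * ((1 + t * d φ Z v') * R))) =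
      ((t * 3 ^ (q ^ 2)) ^ 2 * ((1 + t * d φ Z v) * (1 + t * d φ Z v'))) * (w φ S * R) := by ring
  rw [e1]
  refine mul_le_mul_of_nonneg_right ?_ hwR
  have f1 : t * d φ Z v * (t * d φ Z v') ≤ (t * 3 ^ (q ^ 2)) ^ 2 := by
    rw [sq]; exact mul_le_mul b1 b2 c2 (le_trans c1 b1)
  have f2 : (1:ℝ) ≤ (1 + t * d φ Z v) * (1 + t * d φ Z v') := by nlinarith
  have f3 : (0:ℝ) ≤ (t * 3 ^ (q ^ 2)) ^ 2 := by positivity
  nlinarith

/-- The weight factor attached to the number of points of `e ∪ f` inside `S`. -/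
noncomputable def gam (τ : ℝ) (n : ℕ) : ℝ :=
  if 4 ≤ n then 1 else if n = 3 then τ else if n = 2 then τ ^ 2 else 0

lemma gam_nonneg {τ : ℝ} (h : 0 ≤ τ) (n : ℕ) : 0 ≤ gam τ n := by
  unfold gam
  split_ifs <;> positivity

/-- (C) the mixed difference bound. -/
lemma D2_bound {t : ℝ} (ht : 0 ≤ t) {φ : Finset V → ℝ} {q : ℕ} {S Z e f : Finset V}
    (hZ : Z ⊆ S) (hS : S.card = q) (h0 : ∀ e, 0 ≤ φ e) (h3 : ∀ e, φ e ≤ 3)
    (hec : e.card = 3) (hfc : f.card = 3) (hef : e ≠ f)
    (he : φ e = 1) (hf : φ f = 1) :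
    D2 t φ e f S Z ≤ gam (t * 3 ^ (q ^ 2)) (S ∩ (e ∪ f)).card * U t φ S Z := by
  have hU := U_nonneg ht h0 S Z
  by_cases h4 : 4 ≤ (S ∩ (e ∪ f)).card
  · rw [gam, if_pos h4, one_mul]
    exact D2_le ht h0 e f S Z
  · by_cases h3' : (S ∩ (e ∪ f)).card = 3
    · rw [gam, if_neg h4, if_pos h3']
      have : ¬ e ⊆ S ∨ ¬ f ⊆ S := by
        by_contra hcon
        push Not at hcon
        have h5 : e ∪ f ⊆ S := union_subset hcon.1 hcon.2
        have h6 : S ∩ (e ∪ f) = e ∪ f := inter_eq_right.2 h5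
        rw [h6] at h3'
        have h7 : e = e ∪ f := eq_of_subset_of_card_le subset_union_left (by omega)
        have h8 : f = e ∪ f := eq_of_subset_of_card_le subset_union_right (by omega)
        exact hef (h7.trans h8.symm)
      rcases this with h | h
      · exact le_trans (D2_le_single ht h0 e f S Z) (U_single ht hZ hS h0 h3 he h)
      · rw [D2_comm]
        exact le_trans (D2_le_single ht h0 f e S Z) (U_single ht hZ hS h0 h3 hf h)
    · have hes : ¬ e ⊆ S := by
        intro h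
        have : e ⊆ S ∩ (e ∪ f) := subset_inter h subset_union_left
        have := card_le_card this
        omega
      have hfs : ¬ f ⊆ S := by
        intro h
        have : f ⊆ S ∩ (e ∪ f) := subset_inter h subset_union_right
        have := card_le_card this
        omega
      by_cases hce : ∃ v, Cross S Z e v
      · by_cases hcf : ∃ v, Cross S Z f v
        · obtain ⟨v, hv⟩ := hce
          obtain ⟨v', hv'⟩ := hcf
          obtain ⟨h1, p, hp, hpx⟩ := id hv
          obtain ⟨h1', p', hp', hpx'⟩ := id hv'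
          rw [mem_powersetCard] at hp hp'
          have hpin : p ⊆ S ∩ (e ∪ f) := by
            refine subset_inter (hp.1.trans hZ) ?_
            refine subset_union_left.trans' ?_
            rw [← hpx]; exact subset_insert _ _
          have hpin' : p' ⊆ S ∩ (e ∪ f) := by
            refine subset_inter (hp'.1.trans hZ) ?_
            refine subset_union_right.trans' ?_
            rw [← hpx']; exact subset_insert _ _
          have hc2 : (S ∩ (e ∪ f)).card = 2 := by
            have := card_le_card hpin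
            omega
          have hpp : p = p' := by
            rw [eq_of_subset_of_card_le hpin (by omega), eq_of_subset_of_card_le hpin' (by omega)]
          have hne : v ≠ v' := by
            rintro rfl
            apply hef
            rw [← hpx, ← hpx', hpp]
          rw [gam, if_neg h4, if_neg h3', if_pos hc2]
          exact D2_cross_cross ht hZ hS h0 h3 he hf hv hv' hne
        · push Not at hcf
          rw [D2_comm, D2_inactive hfs hcf]
          exact mul_nonneg (gam_nonneg (by positivity) _) hU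
      · push Not at hce
        rw [D2_inactive hes hce]
        exact mul_nonneg (gam_nonneg (by positivity) _) hU

end Pool.Agent.Lib.P90b739
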